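import Pool.Agent.H78.STN.Stmts3

set_option autoImplicit false

open Finset Pool.Agent.H40.COL

namespace Pool.STN

theorem chbz_ge (n : ℕ) (h3 : n % 3 ≠ 0) : n ≤ F n := by
  unfold F
  rw [if_neg h3]
  split_ifs with h <;> omega

theorem chbz_gt (n : ℕ) (hn : 2 ≤ n) (h3 : n % 3 ≠ 0) : n < F n := by
  unfold F
  rw [if_neg h3]
  split_ifs with h <;> omega

theorem chbz_mul (n : ℕ) (h3 : n % 3 = 0) : n * 2 = 3 * F n := by
  unfold F
  rw [if_pos h3]
  omega

theorem chbz_lt (n : ℕ) (hn : 1 ≤ n) (h3 : n % 3 = 0) : F n < n := by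
  have := chbz_mul n h3
  omega

theorem chbz_log32 : Real.log (3 / 2) ≤ 3 / 5 * Real.log 2 := by
  have h1 : Real.log ((3 / 2 : ℝ) ^ 5) ≤ Real.log ((2 : ℝ) ^ 3) :=
    Real.log_le_log (by norm_num) (by norm_num)
  rw [Real.log_pow, Real.log_pow] at h1
  push_cast at h1
  linarith

/-- the block estimate -/
theorem chbz_blk (x b w : ℕ) (hw : 1 ≤ w) (h : x * 2 ^ b = 3 ^ b * w) :
    (b : ℝ) * Real.log 2 ≤ Real.log w ∧ Real.log x ≤ 8 / 5 * Real.log w := by
  have hdvd : 2 ^ b ∣ w := by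
    have h1 : 2 ^ b ∣ 3 ^ b * w := ⟨x, by rw [← h]; ring⟩
    exact (Nat.Coprime.dvd_of_dvd_mul_left (Nat.Coprime.pow b b (by norm_num)) h1)
  have hle : 2 ^ b ≤ w := Nat.le_of_dvd hw hdvd
  have h1 : (b : ℝ) * Real.log 2 ≤ Real.log w := by
    rw [← Real.log_pow]
    refine Real.log_le_log (by positivity) ?_
    exact_mod_cast hle
  refine ⟨h1, ?_⟩
  have hw0 : (0 : ℝ) < w := by exact_mod_cast hw
  have hx0 : 0 < x := by
    rcases Nat.eq_zero_or_pos x with h0 | h0
    · rw [h0, zero_mul] at h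
      have : 0 < 3 ^ b * w := by positivity
      omega
    · exact h0
  have hxr : (0 : ℝ) < x := by exact_mod_cast hx0
  have h2 : Real.log x + b * Real.log 2 = b * Real.log 3 + Real.log w := by
    have h3 : (x : ℝ) * 2 ^ b = 3 ^ b * w := by exact_mod_cast h
    have h4 := congrArg Real.log h3
    rw [Real.log_mul hxr.ne' (by positivity), Real.log_mul (by positivity) hw0.ne',
      Real.log_pow, Real.log_pow] at h4
    exact h4
  have h3 : Real.log (3 / 2) = Real.log 3 - Real.log 2 := Real.log_div (by norm_num) (by norm_num)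
  have h4 := chbz_log32
  have h5 : (b : ℝ) * (Real.log 3 - Real.log 2) ≤ b * (3 / 5 * Real.log 2) := by
    rw [← h3]
    exact mul_le_mul_of_nonneg_left h4 (Nat.cast_nonneg b)
  nlinarith

theorem CHB_thm : CHBStmt := by
  intro m0 k K hm hk hcyc hmin hlm
  set x : ℕ → ℕ := fun j => F^[j] m0 with hx
  have hxs : ∀ j, x (j + 1) = F (x j) := fun j => Function.iterate_succ_apply' F j m0
  have hx2 : ∀ j, 2 ≤ x j := fun j => hm.trans (hmin j)
  set ℓ : ℝ := Real.log m0 with hℓ
  have hℓ0 : 0 ≤ ℓ := Real.log_natCast_nonneg m0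
  set S : ℕ → ℝ := fun n => ∑ i ∈ range n, ((8 : ℝ) / 5) ^ i with hS
  have hSs : ∀ n, S (n + 1) = S n + (8 / 5) ^ n := fun n => sum_range_succ _ n
  set D : ℕ → ℕ := fun d => ∑ i ∈ range d, if x (k - 1 - i) % 3 = 0 then 1 else 0 with hD
  set L : ℕ → ℕ := fun d => ∑ i ∈ range d,
    if x (k - 1 - i) % 3 = 0 ∧ x (k - 1 - i + 1) % 3 ≠ 0 then 1 else 0 with hL
  have hDs : ∀ d, D (d + 1) = D d + if x (k - 1 - d) % 3 = 0 then 1 else 0 :=
    fun d => sum_range_succ _ d
  have hLs : ∀ d, L (d + 1) = L d +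
      if x (k - 1 - d) % 3 = 0 ∧ x (k - 1 - d + 1) % 3 ≠ 0 then 1 else 0 :=
    fun d => sum_range_succ _ d
  have hm3 : m0 % 3 ≠ 0 := by
    intro h3
    have h1 : m0 ≤ F m0 := hmin 1
    have h2 := chbz_lt m0 (by omega) h3
    omega
  have key : ∀ d, d ≤ k →
      (x (k - d) % 3 ≠ 0 → Real.log (x (k - d)) ≤ (8 / 5) ^ (L d) * ℓ ∧
        (D d : ℝ) * Real.log 2 ≤ S (L d) * ℓ) ∧
      (x (k - d) % 3 = 0 → ∃ b w Lw Dw : ℕ, 1 ≤ w ∧ x (k - d) * 2 ^ b = 3 ^ b * w ∧
        Real.log w ≤ (8 / 5) ^ Lw * ℓ ∧ (Dw : ℝ) * Real.log 2 ≤ S Lw * ℓ ∧ L d = Lw + 1 ∧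
        D d = Dw + b) := by
    intro d
    induction d with
    | zero =>
      intro _
      have h0 : x (k - 0) = m0 := hcyc
      refine ⟨fun _ => ?_, fun h => ?_⟩
      · rw [h0]
        simp [hL, hD, hS, hℓ]
      · rw [h0] at h
        exact absurd h hm3
    | succ d ih =>
      intro hd
      obtain ⟨ih1, ih2⟩ := ih (by omega)
      have hj : k - d = k - (d + 1) + 1 := by omega
      have hj' : k - 1 - d = k - (d + 1) := by omega
      have hD' := hDs d
      have hL' := hLs d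
      rw [hj'] at hD' hL'
      rw [hj] at ih1 ih2
      set j := k - (d + 1) with hjd
      have hxj := hxs j
      refine ⟨fun h3 => ?_, fun h3 => ?_⟩
      · rw [if_neg h3, add_zero] at hD'
        rw [if_neg (fun h => h3 h.1), add_zero] at hL'
        have hle : Real.log (x j) ≤ Real.log (x (j + 1)) := by
          refine Real.log_le_log (by have := hx2 j; positivity) ?_
          have := chbz_ge (x j) h3
          rw [← hxj] at this
          exact_mod_cast this
        by_cases h4 : x (j + 1) % 3 = 0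
        · obtain ⟨b, w, Lw, Dw, hw, hb, hlw, hdw, hL2, hD2⟩ := ih2 h4
          obtain ⟨e1, e2⟩ := chbz_blk _ b w hw hb
          rw [hL', hD', hL2, hD2, hSs, pow_succ]
          refine ⟨?_, ?_⟩
          · nlinarith
          · push_cast
            nlinarith
        · obtain ⟨e1, e2⟩ := ih1 h4
          rw [hL', hD']
          exact ⟨hle.trans e1, e2⟩
      · rw [if_pos h3] at hD'
        have hmul := chbz_mul (x j) h3
        rw [← hxj] at hmul
        by_cases h4 : x (j + 1) % 3 = 0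
        · rw [if_neg (fun h => h.2 h4), add_zero] at hL'
          obtain ⟨b, w, Lw, Dw, hw, hb, hlw, hdw, hL2, hD2⟩ := ih2 h4
          refine ⟨b + 1, w, Lw, Dw, hw, ?_, hlw, hdw, by rw [hL', hL2], by rw [hD', hD2]; ring⟩
          calc x j * 2 ^ (b + 1) = (x j * 2) * 2 ^ b := by ring
            _ = 3 * (x (j + 1) * 2 ^ b) := by rw [hmul]; ring
            _ = 3 ^ (b + 1) * w := by rw [hb]; ring
        · rw [if_pos ⟨h3, h4⟩] at hL'
          obtain ⟨e1, e2⟩ := ih1 h4
          refine ⟨1, x (j + 1), L d, D d, by have := hx2 (j + 1); omega, ?_, e1, e2, hL', hD'⟩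
          rw [pow_one, pow_one]
          exact hmul
  obtain ⟨hfin, -⟩ := key k le_rfl
  have h00 : x (k - k) = m0 := by
    rw [Nat.sub_self]
    rfl
  rw [h00] at hfin
  obtain ⟨-, hfin⟩ := hfin hm3
  have hDk : D k = dnc m0 k := by
    rw [hD]
    change (∑ i ∈ range k, if x (k - 1 - i) % 3 = 0 then 1 else 0) = dnc m0 k
    rw [sum_range_reflect (fun i => if x i % 3 = 0 then 1 else 0) k]
    unfold dnc
    rw [card_filter]
  have hLk : L k ≤ K := by
    refine le_trans ?_ hlm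
    rw [hL]
    change (∑ i ∈ range k, if x (k - 1 - i) % 3 = 0 ∧ x (k - 1 - i + 1) % 3 ≠ 0 then 1 else 0) ≤ _
    rw [sum_range_reflect (fun i => if x i % 3 = 0 ∧ x (i + 1) % 3 ≠ 0 then 1 else 0) k,
      ← card_filter]
    unfold lm
    refine card_le_card ?_
    intro i hi
    rw [mem_filter] at hi ⊢
    refine ⟨hi.1, ?_, ?_⟩
    · have h1 := chbz_lt (x i) (by have := hx2 i; omega) hi.2.1
      rw [← hxs i] at h1
      exact h1
    · have h1 := chbz_gt (x (i + 1)) (hx2 (i + 1)) hi.2.2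
      rw [← hxs (i + 1)] at h1
      exact h1
  rw [hDk] at hfin
  refine hfin.trans (mul_le_mul_of_nonneg_right ?_ hℓ0)
  refine sum_le_sum_of_subset_of_nonneg ?_ fun i _ _ => by positivity
  exact range_subset_range.2 hLk

end Pool.STN
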